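import Mathlib
import Pool.Agent.W995.TM.Defs
import Pool.Agent.W995.TM.Main

/-!
# Equations with abelianisation constraints in trace monoids

The Diophantine problem with abelianisation constraints is decidable for the trace monoid `M(A, I)`
if and only if any two distinct letters are independent, that is, `M(A, I)` is free commutative.
-/

set_option autoImplicit false

namespace Pool.Agent.Results.MP_301441_lc.Classification

open Pool.Agent.W995.TraceEq

/-- The Diophantine problem with abelianisation constraints is decidable for the trace monoid
`M(A, I)` (`A = Fin k`, `I` symmetric) if and only if any two distinct letters are independent. -/
theorem result (k : ℕ) (I : Fin k → Fin k → Prop) (hI : ∀ a b, I a b → I b a) :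
    ComputablePred (Solvable I) ↔ ∀ a b, a ≠ b → I a b :=
  classification k I hI

end Pool.Agent.Results.MP_301441_lc.Classification
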